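import Pool.Agent.H1.Box3

namespace Pool.Agent.Results.MP_5f7e36_co.Exact
open Pool.Agent.H1.Box

/-- A box: a product of nondegenerate closed intervals. -/
def IsBox {d : ℕ} (B : Set (Fin d → ℝ)) : Prop :=
  ∃ a b : Fin d → ℝ, (∀ i, a i < b i) ∧ B = {x | ∀ i, a i ≤ x i ∧ x i ≤ b i}

/-- Some affine line meets every member of the family. -/
def HasLine {d : ℕ} (F : Finset (Set (Fin d → ℝ))) : Prop :=
  ∃ p v : Fin d → ℝ, v ≠ 0 ∧ ∀ B ∈ F, ∃ t : ℝ, p + t • v ∈ B

/-- `h` is a Helly number for line transversals to boxes in dimension `d`. -/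
def Helly (d h : ℕ) : Prop :=
  ∀ F : Finset (Set (Fin d → ℝ)), (∀ B ∈ F, IsBox B) →
    (∀ G ⊆ F, G.card ≤ h → HasLine G) → HasLine F

theorem result (d : ℕ) (hd : 2 ≤ d) : IsLeast {h : ℕ | Helly d h} (2 ^ (d - 1) * (2 * d - 1)) := by
  classical
  obtain ⟨m, rfl⟩ : ∃ m, d = m + 1 := ⟨d - 1, by omega⟩
  have e : 2 * (m + 1) - 1 = 2 * m + 1 := by omega
  rw [Nat.add_sub_cancel, e]
  constructor
  · intro F hF h
    choose! a b _ hab using hF
    obtain ⟨p, v, hv, H⟩ := upper a b F fun G hG hc => by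
      obtain ⟨p, v, -, H⟩ := h G hG hc
      refine ⟨p, v, fun B hB => ?_⟩
      obtain ⟨t, ht⟩ := H B hB
      rw [hab B (hG hB)] at ht
      exact ⟨t, ht⟩
    refine ⟨p, v, hv, fun B hB => ?_⟩
    obtain ⟨t, ht⟩ := H B hB
    refine ⟨t, ?_⟩
    rw [hab B hB]
    exact ht
  · intro h hh
    by_contra hlt
    obtain ⟨lo, hi, h1, h2, h3⟩ := lower (m := m) (by omega)
    let B := fun i => {x : Fin (m + 1) → ℝ | ∀ k, lo i k ≤ x k ∧ x k ≤ hi i k}
    have hinj : Function.Injective B := by
      intro i j hij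
      by_contra hne
      obtain ⟨p, v, -, H⟩ := h3 i
      refine h2 p v fun k => ?_
      by_cases hk : k = i
      · obtain ⟨t, ht⟩ := H j (Ne.symm hne)
        have : (fun k => p k + t * v k) ∈ B j := ht
        rw [← hij] at this
        exact ⟨t, hk ▸ this⟩
      · exact H k hk
    obtain ⟨p, v, -, H⟩ := hh (Finset.univ.image B) (fun C hC => by
      obtain ⟨i, -, rfl⟩ := Finset.mem_image.1 hC
      exact ⟨lo i, hi i, h1 i, rfl⟩) fun G hG hc => by
        have hcard : G.card < (Finset.univ.image B).card := by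
          rw [Finset.card_image_of_injective _ hinj]
          simp only [Finset.card_univ, Fintype.card_prod, Fintype.card_pi, Fintype.card_bool,
            Finset.prod_const, Fintype.card_fin, Fintype.card_option]
          rw [mul_comm m 2]
          omega
        obtain ⟨C, hC, hCG⟩ := Finset.exists_mem_notMem_of_card_lt_card hcard
        obtain ⟨i, -, rfl⟩ := Finset.mem_image.1 hC
        obtain ⟨p, v, hv, H⟩ := h3 i
        refine ⟨p, v, hv, fun C hC => ?_⟩
        obtain ⟨j, -, rfl⟩ := Finset.mem_image.1 (hG hC)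
        exact H j fun hj => hCG (hj ▸ hC)
    exact h2 p v fun i => H (B i) (Finset.mem_image_of_mem _ (Finset.mem_univ i))

end Pool.Agent.Results.MP_5f7e36_co.Exact
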